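import Pool.Agent.H517.E.Tw
import Pool.Agent.H517.E.Two

/-!
# Schneider's conjecture for all twists, in towers of `p`-extensions over `K(ζ_p)`, `[K(ζ_p) : K] = 2`
# (for `p = 3`: over `K(√-3)`)

`p` is an odd prime number, `K` a number field, `w` a place of `K` above `p` and `S` a finite set of places of
`K` not above `p`. We suppose

* `Generates p S w`: the class group modulo the class of `w` has order prime to `p` and, `(p) = w^e 𝔟`
  with `𝔟` prime to `w` and `𝔫` the product of the primes in `S`, every element of `(O / 𝔟³ 𝔫)ˣ` is the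
  product of a `p`-th power and of the image of an `α ∈ O` for which `(α)` is a power of `w`;
* `Independent p S w`: the completion `K_w` contains no primitive `p`-th root of unity and an element of `Kˣ` which is
  a `p`-th power in `K_w` and whose orders at all primes outside `p` and `S` are divisible by `p` is a `p`-th
  power in `K`.

For example `K` may be an imaginary quadratic field and `S = ∅` if `(p) = w w'` with `w ≠ w'`, the
class number is prime to `p` and `α^(p-1) ≢ 1` modulo `w'^2` for an `α` for which `(α)` is a power of `w`; and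
`K = ℚ(√(1 - 4p))` for every odd `p`.

Theorem. (1) Let `L` be a field which is contained in a finite Galois extension `M / K` of degree
`2 · p^a`, unramified outside `p` and `S`, which contains the `p`-th roots of unity: so `[K(ζ_p) : K] = 2` and `M` is a
tower of `p`-extensions over `K(ζ_p)`; for `p = 3` these are all towers of `3`-extensions over
`K(√-3)`; this includes the fields in towers of `p`-extensions over `K`. For ALL integers `r` every class in
`H¹(G_L, ℤ_p(r))` which is unramified outside `p` and `S` and trivial at ONE place above `w` is zero. In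
particular `Ш¹(O_{L,S'}, ℤ_p(r)) = 0` for all `S'` and all `r`, which is Schneider's conjecture for `L`, `p` and all `r`.
(2) For all odd `p` the same is true for the fields `L` contained in a Galois extension of `K` of `p`-power degree
unramified outside `p` and `S` and all `r` with `r ≡ 1` modulo `p - 1`.

For `p = 3` and imaginary quadratic `K`, e.g. `ℚ(√-2)` and `ℚ(√-11)`, the base field `K(√-3)` in (1) has two places above `3` and
contains the cube roots of unity, so it is not `(3, i)`-regular for any `i` and the going-up theorems for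
such fields do not apply.

Proof. Cocycles of `G_K` with values in `ℤ/p` or `μ_p` which vanish on the inertia groups outside `p`, `S` and
on the decomposition group of a place above `w` are zero, by class field theory and by Kummer theory. If
`[K(ζ_p) : K] = 2` it follows that the homomorphisms of the group of `K(ζ_p)` to `ℤ/p` with these properties are zero
(the two eigenspaces), so the decomposition group is dense in the maximal pro-`p` quotient unramified outside `p` and `S`.
-/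

set_option autoImplicit false
set_option linter.unusedSectionVars false

namespace Pool.Agent.Results.MP_59f3ad_nt.AllTwistsAtThree

open NumberField IsDedekindDomain Module

/-! ### The Galois groups, the decomposition groups and the inertia groups -/

/-- An algebraic closure of the number field `K`. -/
abbrev Bar (K : Type) [Field K] : Type := AlgebraicClosure K

/-- The absolute Galois group of `K`. -/
abbrev Gal (K : Type) [Field K] : Type := Bar K ≃ₐ[K] Bar K

/-- The absolute Galois group of the field `L` between `K` and its algebraic closure. -/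
abbrev GalL {K : Type} [Field K] (L : IntermediateField K (Bar K)) : Type := L.fixingSubgroup

section def1

variable {K : Type} [Field K]

/-- The maximal ideal `Q` of the ring of all algebraic integers lies above the prime `v` of `K`. -/
def Above (Q : Ideal (𝓞 (Bar K))) (v : HeightOneSpectrum (𝓞 K)) : Prop :=
  Q.IsMaximal ∧ Q.comap (algebraMap (𝓞 K) (𝓞 (Bar K))) = v.asIdeal

/-- The decomposition group of the maximal ideal `Q` of the ring of all algebraic integers: the `σ`
such that `σ Q = Q`. -/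
def Dec (Q : Ideal (𝓞 (Bar K))) : Set (Gal K) := {σ | ∀ x : 𝓞 (Bar K), x ∈ Q ↔ σ • x ∈ Q}

/-- The inertia group: the `σ` such that `σ x` is congruent to `x` modulo `Q` for all `x`. -/
def Inr (Q : Ideal (𝓞 (Bar K))) : Set (Gal K) := {σ | ∀ x : 𝓞 (Bar K), σ • x - x ∈ Q}

/-- `Q` is a place of the field of all algebraic numbers at which no ramification is allowed: it is a
maximal ideal, not above `p` and not above a prime in `S`. -/
def Outside (p : ℕ) (S : Finset (HeightOneSpectrum (𝓞 K))) (Q : Ideal (𝓞 (Bar K))) : Prop :=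
  Q.IsMaximal ∧ (p : 𝓞 (Bar K)) ∉ Q ∧ ∀ v ∈ S, ¬ Above Q v

/-- `L` is contained in a finite Galois extension `M / K` whose degree is a power of `p` and which is
unramified outside `p` and `S`. -/
def InTower (p : ℕ) (S : Finset (HeightOneSpectrum (𝓞 K))) (L : IntermediateField K (Bar K)) :
    Prop :=
  ∃ M : IntermediateField K (Bar K), L ≤ M ∧ FiniteDimensional K M ∧ IsGalois K M ∧
    (∃ a : ℕ, finrank K M = p ^ a) ∧
    ∀ Q : Ideal (𝓞 (Bar K)), Outside p S Q → ∀ σ ∈ Inr Q, ∀ x ∈ M, σ x = x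

/-- `L` is contained in a finite Galois extension `M / K` of degree `2 · p ^ a` which contains the `p`-th
roots of unity and is unramified outside `p` and `S`. -/
def InTowerTwo (p : ℕ) (S : Finset (HeightOneSpectrum (𝓞 K))) (L : IntermediateField K (Bar K)) :
    Prop :=
  ∃ M : IntermediateField K (Bar K), L ≤ M ∧ FiniteDimensional K M ∧ IsGalois K M ∧
    (∃ a : ℕ, finrank K M = 2 * p ^ a) ∧ (∀ ζ : Bar K, ζ ^ p = 1 → ζ ∈ M) ∧
    ∀ Q : Ideal (𝓞 (Bar K)), Outside p S Q → ∀ σ ∈ Inr Q, ∀ x ∈ M, σ x = x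

/-! ### The Tate twists and the Tate–Shafarevich groups -/

/-- The `p`-adic cyclotomic character. -/
noncomputable def cyc (K : Type) [Field K] (p : ℕ) [Fact p.Prime] : Gal K →* ℤ_[p]ˣ :=
  (cyclotomicCharacter (Bar K) p).comp (MulSemiringAction.toRingAut (Gal K) (Bar K))

variable {p : ℕ} [Fact p.Prime] {L : IntermediateField K (Bar K)}

/-- The `p`-adic integer by which the element `σ` of the absolute Galois group of `L` acts on
`ℤ_p(r)`, that is, the `r`-th power of the value of the cyclotomic character. -/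
noncomputable def tate (p : ℕ) [Fact p.Prime] {L : IntermediateField K (Bar K)} (r : ℤ)
    (σ : GalL L) : ℤ_[p] :=
  (((cyc K p (σ : Gal K)) ^ r : ℤ_[p]ˣ) : ℤ_[p])

/-- The continuous cocycles of the absolute Galois group of `L` with values in `ℤ_p(r)`. -/
structure IsCocycle (r : ℤ) (c : GalL L → ℤ_[p]) : Prop where
  cont : Continuous c
  mul : ∀ σ τ, c (σ * τ) = c σ + tate p r σ * c τ

/-- The restriction of `c` to the intersection of the absolute Galois group of `L` and `X` is a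
coboundary with values in `ℤ_p(r)`. -/
def TrivialOn (r : ℤ) (X : Set (Gal K)) (c : GalL L → ℤ_[p]) : Prop :=
  ∃ z : ℤ_[p], ∀ σ : GalL L, (σ : Gal K) ∈ X → c σ = (tate p r σ - 1) * z

/-- The cocycles of the elements of the groups `Ш¹(O_{L,S}, ℤ_p(r))`: they vanish on the inertia
groups of the places prime to `p` (on which the cyclotomic character is trivial), because their
classes are unramified outside `S` and locally trivial at the places of `S`, and their restrictions
to the decomposition groups of the places above `p` are coboundaries. -/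
structure InSha (r : ℤ) (c : GalL L → ℤ_[p]) : Prop where
  away : ∀ Q : Ideal (𝓞 (Bar K)), Q.IsMaximal → (p : 𝓞 (Bar K)) ∉ Q →
    ∀ σ : GalL L, (σ : Gal K) ∈ Inr Q → c σ = 0
  above : ∀ Q : Ideal (𝓞 (Bar K)), Q.IsMaximal → (p : 𝓞 (Bar K)) ∈ Q → TrivialOn r (Dec Q) c

/-- `Ш¹(O_{L,S}, ℤ_p(r)) = 0` for all `S`. -/
def ShaZero (p : ℕ) [Fact p.Prime] (L : IntermediateField K (Bar K)) (r : ℤ) : Prop :=
  ∀ c : GalL L → ℤ_[p], IsCocycle r c → InSha r c → TrivialOn r Set.univ c

end def1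

/-! ### The condition on the place above `p` and on `S` -/

section def2

variable {K : Type} [Field K] [NumberField K]

/-- The class of a prime. -/
noncomputable def cl (w : HeightOneSpectrum (𝓞 K)) : ClassGroup (𝓞 K) :=
  ClassGroup.mk0 ⟨w.asIdeal, mem_nonZeroDivisors_iff_ne_zero.2 w.ne_bot⟩

/-- The class group modulo the class of `w` has order prime to `p`. -/
def ClassCondition (p : ℕ) (w : HeightOneSpectrum (𝓞 K)) : Prop :=
  ∀ C : ClassGroup (𝓞 K), ∃ m k : ℕ, ¬ p ∣ m ∧ C ^ m = cl w ^ k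

/-- The place `w` lies above `p`, those in `S` do not, the class group modulo the class of `w` has order
prime to `p` and, `(p) = w ^ e 𝔟` with `𝔟` prime to `w` and `𝔫` the product of the primes in `S`,
the group `(O / 𝔟 ^ 3 𝔫)ˣ` is generated by the `p`-th powers and the images of the elements `α` of
`O` for which `(α)` is a power of `w`. -/
structure Generates (p : ℕ) (S : Finset (HeightOneSpectrum (𝓞 K))) (w : HeightOneSpectrum (𝓞 K)) :
    Prop where
  above : (p : 𝓞 K) ∈ w.asIdeal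
  tame : ∀ v ∈ S, (p : 𝓞 K) ∉ v.asIdeal
  classes : ClassCondition p w
  units : ∃ (e : ℕ) (𝔟 : Ideal (𝓞 K)), w.asIdeal ^ e * 𝔟 = Ideal.span {(p : 𝓞 K)} ∧
    IsCoprime w.asIdeal 𝔟 ∧ ∀ x : 𝓞 K, IsCoprime (Ideal.span {x}) (𝔟 * ∏ v ∈ S, v.asIdeal) →
      ∃ (α y : 𝓞 K) (k : ℕ), Ideal.span {α} = w.asIdeal ^ k ∧
        x * α - y ^ p ∈ 𝔟 ^ 3 * ∏ v ∈ S, v.asIdeal

/-- The element `x` of `K` has a `p`-th root which is fixed by the decomposition group of a place above
`w`, that is, it is a `p`-th power in the completion of `K` at `w`. -/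
def PowerAt (p : ℕ) (w : HeightOneSpectrum (𝓞 K)) (x : K) : Prop :=
  ∃ (Q : Ideal (𝓞 (Bar K))) (y : Bar K), Above Q w ∧ y ^ p = algebraMap K (Bar K) x ∧
    ∀ σ ∈ Dec Q, σ y = y

/-- The completion at `w` contains no primitive `p`-th root of unity, and the elements of `Kˣ` which
are `p`-th powers there and whose orders at the primes not above `p` and not in `S` are divisible by `p` are
`p`-th powers in `K`. -/
structure Independent (p : ℕ) (S : Finset (HeightOneSpectrum (𝓞 K))) (w : HeightOneSpectrum (𝓞 K)) :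
    Prop where
  roots : ∀ Q : Ideal (𝓞 (Bar K)), Above Q w → ∀ ζ : Bar K, IsPrimitiveRoot ζ p →
    ∃ σ ∈ Dec Q, σ ζ ≠ ζ
  powers : ∀ x : K, x ≠ 0 → (∀ v : HeightOneSpectrum (𝓞 K), (p : 𝓞 K) ∉ v.asIdeal → v ∉ S →
    ∃ t : WithZero (Multiplicative ℤ), v.valuation K x = t ^ p) → PowerAt p w x → ∃ b : K, x = b ^ p

/-- Both conditions. -/
def Suitable (p : ℕ) (S : Finset (HeightOneSpectrum (𝓞 K))) (w : HeightOneSpectrum (𝓞 K)) : Prop :=
  Generates p S w ∧ Independent p S w

/-- The classical condition for imaginary quadratic fields: `(p) = w w'`, `w ≠ w'`, `p` does not divide the class number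
and `α ^ (p - 1)` is not `1` modulo `w' ^ 2` for an `α` for which `(α)` is a power of `w`. -/
def Gold (p : ℕ) (w w' : HeightOneSpectrum (𝓞 K)) : Prop :=
  w ≠ w' ∧ w.asIdeal * w'.asIdeal = Ideal.span {(p : 𝓞 K)} ∧ ¬ p ∣ classNumber K ∧
    ∃ (α : 𝓞 K) (k : ℕ), Ideal.span {α} = w.asIdeal ^ k ∧ α ^ (p - 1) - 1 ∉ w'.asIdeal ^ 2

/-- **One place controls.** The classes of `H¹(G_L, ℤ_p(r))` which are unramified outside `p` and `S` and trivial
at ONE place above `w` are zero, and `Ш¹(O_{L,S'}, ℤ_p(r)) = 0` for all `S'`. -/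
def OnePlaceControls (p : ℕ) [Fact p.Prime] (S : Finset (HeightOneSpectrum (𝓞 K)))
    (w : HeightOneSpectrum (𝓞 K)) (L : IntermediateField K (Bar K)) (r : ℤ) : Prop :=
  (∀ c : GalL L → ℤ_[p], IsCocycle r c →
    (∀ Q : Ideal (𝓞 (Bar K)), Outside p S Q → ∀ σ : GalL L, (σ : Gal K) ∈ Inr Q → c σ = 0) →
    ∀ Q : Ideal (𝓞 (Bar K)), Above Q w → TrivialOn r (Dec Q) c → TrivialOn r Set.univ c) ∧
  ShaZero p L r

end def2

section proof

open Pool.Agent.NH7.Sch (OO)
open Pool.Agent.H517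

variable {K : Type} [Field K] [NumberField K] {p : ℕ} [hp : Fact p.Prime]

theorem prod_le_iff {S : Finset (HeightOneSpectrum (𝓞 K))} (v : HeightOneSpectrum (𝓞 K)) :
    (∏ u ∈ S, u.asIdeal) ≤ v.asIdeal ↔ v ∈ S := by
  constructor
  · intro h
    obtain ⟨u, hu, huv⟩ := (v.isPrime.prod_le).1 h
    have : u = v := HeightOneSpectrum.ext (u.isMaximal.eq_of_le v.isPrime.ne_top huv)
    exact this ▸ hu
  · intro h
    exact Ideal.le_of_dvd (Finset.dvd_prod_of_mem _ h)

theorem rc (h2 : p = 2 → IsEmpty (K →+* ℝ)) {S : Finset (HeightOneSpectrum (𝓞 K))}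
    {w : HeightOneSpectrum (𝓞 K)} (h : Generates p S w) :
    Pool.Agent.H517.S.RC p {v | (p : 𝓞 K) ∈ v.asIdeal ∨ v ∈ S} w := by
  obtain ⟨e, 𝔟, hab, hcop, hun⟩ := h.units
  have h1 := Pool.Agent.H517.S.rc_all h2 hab hcop (𝔫 := ∏ v ∈ S, v.asIdeal) ?_ ?_ h.above
    (B.cls_divisor h.classes) hun
  · simpa only [prod_le_iff] using h1
  · exact Finset.prod_ne_zero_iff.2 fun v _ => v.ne_bot
  · refine IsCoprime.prod_right fun v hv => ?_
    rw [Ideal.isCoprime_iff_sup_eq]
    have h3 : ¬ Ideal.span {(p : 𝓞 K)} ≤ v.asIdeal := by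
      rw [Ideal.span_singleton_le_iff_mem]
      exact h.tame v hv
    exact v.isMaximal.1.2 _ (lt_of_le_of_ne le_sup_right fun h4 => h3 (by
      rw [h4]; exact le_sup_left))


theorem out_IS {S : Finset (HeightOneSpectrum (𝓞 K))} {w : HeightOneSpectrum (𝓞 K)} (σ : Gal K)
    (h : σ ∈ Pool.Agent.H517.S.IS (K := K) {v | (p : 𝓞 K) ∈ v.asIdeal ∨ v ∈ S} w) :
    ∃ Q, Outside p S Q ∧ σ ∈ Inr Q := by
  obtain ⟨Q, v, hQm, hQv, hvS, hvw, hσ⟩ := h
  refine ⟨Q, ⟨hQm, fun hpQ => hvS (Or.inl ?_), fun u hu hQu => hvS (Or.inr ?_)⟩, hσ⟩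
  · rw [← hQv, Ideal.mem_comap, map_natCast]
    exact hpQ
  · have : u = v := HeightOneSpectrum.ext (hQu.2.symm.trans hQv)
    exact this ▸ hu

theorem ind_iff {S : Finset (HeightOneSpectrum (𝓞 K))} {w : HeightOneSpectrum (𝓞 K)}
    (hw : (p : 𝓞 K) ∈ w.asIdeal) :
    Independent p S w ↔ E.Ind p {v | (p : 𝓞 K) ∈ v.asIdeal ∨ v ∈ S} w := by
  constructor
  · intro h
    refine ⟨fun Q hQ hQw ζ hζ => h.roots Q ⟨hQ, hQw⟩ ζ hζ, fun x hx hv ⟨Q, y, hQ, hQw, hy⟩ =>
      h.powers x hx (fun v hpv hvS => hv v (fun h => h.elim hpv hvS) fun hvw => hpv (hvw ▸ hw))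
        ⟨Q, y, ⟨hQ, hQw⟩, hy⟩⟩
  · intro h
    refine ⟨fun Q hQ ζ hζ => h.roots Q hQ.1 hQ.2 ζ hζ, fun x hx hv ⟨Q, y, hQ, hy⟩ =>
      h.powers x hx (fun v hpv _ => hv v (fun h => hpv (Or.inl h)) fun h => hpv (Or.inr h))
        ⟨Q, y, hQ.1, hQ.2, hy⟩⟩

theorem exists_eps : ∃ (ζ : Bar K) (ε : Gal K →* (ZMod p)ˣ), IsPrimitiveRoot ζ p ∧
    ∀ σ : Gal K, σ ζ = ζ ^ (ε σ : ZMod p).val := by
  obtain ⟨ζ, hζ⟩ : ∃ ζ : Bar K, IsPrimitiveRoot ζ p :=
    HasEnoughRootsOfUnity.exists_primitiveRoot (AlgebraicClosure K) p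
  exact ⟨ζ, hζ.autToPow K, hζ, fun σ => (hζ.autToPow_spec K σ).symm⟩

theorem sha {S : Finset (HeightOneSpectrum (𝓞 K))} {w : HeightOneSpectrum (𝓞 K)}
    (hw : (p : 𝓞 K) ∈ w.asIdeal) {L : IntermediateField K (Bar K)} {r : ℤ}
    (h : ∀ c : GalL L → ℤ_[p], IsCocycle r c →
      (∀ Q : Ideal (𝓞 (Bar K)), Outside p S Q → ∀ σ : GalL L, (σ : Gal K) ∈ Inr Q → c σ = 0) →
      ∀ Q : Ideal (𝓞 (Bar K)), Above Q w → TrivialOn r (Dec Q) c → TrivialOn r Set.univ c) :
    ShaZero p L r := by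
  intro c hc hs
  obtain ⟨Q, hQ, hQw⟩ := Pool.Agent.NH7.Sch.exists_Q (K := K) w
  refine h c hc (fun Q' hQ' => hs.away Q' hQ'.1 hQ'.2.1) Q ⟨hQ, hQw⟩ (hs.above Q hQ ?_)
  have h1 : (p : 𝓞 K) ∈ Q.comap (algebraMap (𝓞 K) (𝓞 (Bar K))) := by
    rw [hQw]
    exact hw
  rwa [Ideal.mem_comap, map_natCast] at h1


theorem main {S : Finset (HeightOneSpectrum (𝓞 K))} {w : HeightOneSpectrum (𝓞 K)}
    {L : IntermediateField K (Bar K)} {r : ℤ} {ζ : Bar K} {ε : Gal K →* (ZMod p)ˣ}
    (hζ : IsPrimitiveRoot ζ p) (hε : ∀ σ : Gal K, σ ζ = ζ ^ (ε σ : ZMod p).val)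
    {Q : Ideal (𝓞 (Bar K))}
    (h1 : E.Ctl (1 : L.fixingSubgroup →* (ZMod p)ˣ)
      {σ : L.fixingSubgroup | (σ : Gal K) ∈
        Pool.Agent.H517.S.IS (K := K) {v | (p : 𝓞 K) ∈ v.asIdeal ∨ v ∈ S} w}
      {σ : L.fixingSubgroup | (σ : Gal K) ∈ Pool.Agent.NH7.Sch.Dec Q})
    (h2 : E.Ctl (ε.comp L.fixingSubgroup.subtype)
      {σ : L.fixingSubgroup | (σ : Gal K) ∈
        Pool.Agent.H517.S.IS (K := K) {v | (p : 𝓞 K) ∈ v.asIdeal ∨ v ∈ S} w}
      {σ : L.fixingSubgroup | (σ : Gal K) ∈ Pool.Agent.NH7.Sch.Dec Q})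
    (hr : ∀ σ : Gal K, ε σ ^ r = 1 ∨ ε σ ^ r = ε σ)
    {c : GalL L → ℤ_[p]} (hc : IsCocycle r c)
    (hu : ∀ Q : Ideal (𝓞 (Bar K)), Outside p S Q → ∀ σ : GalL L, (σ : Gal K) ∈ Inr Q → c σ = 0)
    (hD : TrivialOn r (Dec Q) c) : TrivialOn r Set.univ c := by
  obtain ⟨z, hz⟩ := hD
  let u : GalL L →* ℤ_[p]ˣ := (zpowGroupHom r).comp ((cyc K p).comp L.fixingSubgroup.subtype)
  have hu' : ∀ σ : GalL L, (u σ : ℤ_[p]) = tate p r σ := fun σ => rfl
  have hcont : Continuous fun σ => (u σ : ℤ_[p]) := by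
    have h1 : Continuous fun σ : Gal K => cyc K p σ := Pool.Agent.Y802.continuous_chi K p
    exact Units.continuous_val.comp ((h1.comp continuous_subtype_val).zpow r)
  have h0 := E.twist (p := p) h1 h2 (u := u) hcont ?_ (c := fun σ => c σ - (u σ - 1) * z) ?_ ?_ ?_ ?_
  · refine ⟨z, fun σ _ => ?_⟩
    have h3 := h0 σ
    rw [← hu']
    exact sub_eq_zero.1 h3
  · intro σ
    have h3 : Units.map (PadicInt.toZMod (p := p)).toMonoidHom (cyc K p (σ : Gal K)) = ε (σ : Gal K) :=
      Units.ext (E.cyc_mod hζ hε (σ : Gal K))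
    have h4 : Units.map (PadicInt.toZMod (p := p)).toMonoidHom (u σ) = (ε (σ : Gal K)) ^ r := by
      show Units.map (PadicInt.toZMod (p := p)).toMonoidHom ((cyc K p (σ : Gal K)) ^ r) = _
      rw [map_zpow, h3]
    rcases hr (σ : Gal K) with h5 | h5
    · left
      rw [h5] at h4
      exact congrArg Units.val h4
    · right
      rw [h5] at h4
      exact congrArg Units.val h4
  · exact hc.cont.sub ((hcont.sub continuous_const).mul continuous_const)
  · intro σ τ
    have h1 := hc.mul σ τ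
    rw [← hu'] at h1
    rw [h1, map_mul, Units.val_mul]
    ring
  · intro σ hσ
    obtain ⟨Q', hQ', hσ'⟩ := out_IS _ hσ
    have h1 : cyc K p (σ : Gal K) = 1 := Pool.Agent.NH7.Sch.chi_inr hQ'.1 hQ'.2.1 hσ'
    have h2 : u σ = 1 := by
      show (cyc K p (σ : Gal K)) ^ r = 1
      rw [h1, one_zpow]
    rw [h2, hu Q' hQ' σ hσ', Units.val_one, sub_self, zero_mul, sub_zero]
  · intro σ hσ
    rw [hz σ hσ, hu', sub_self]

theorem cyclo_part (hp2 : p ≠ 2) {S : Finset (HeightOneSpectrum (𝓞 K))}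
    {w : HeightOneSpectrum (𝓞 K)} (hG : Generates p S w) (hI : Independent p S w)
    {L : IntermediateField K (Bar K)} (hL : InTower p S L) {r : ℤ} (hr : ((p - 1 : ℕ) : ℤ) ∣ r - 1) :
    OnePlaceControls p S w L r := by
  have h0 : ∀ c : GalL L → ℤ_[p], IsCocycle r c →
      (∀ Q : Ideal (𝓞 (Bar K)), Outside p S Q → ∀ σ : GalL L, (σ : Gal K) ∈ Inr Q → c σ = 0) →
      ∀ Q : Ideal (𝓞 (Bar K)), Above Q w → TrivialOn r (Dec Q) c → TrivialOn r Set.univ c := by
    intro c hc hu Q hQ hD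
    obtain ⟨M, hLM, hfd, hgal, ⟨b, hb⟩, hur⟩ := hL
    obtain ⟨ζ, ε, hζ, hε⟩ := exists_eps (K := K) (p := p)
    have hIM : ∀ x ∈ Pool.Agent.H517.S.IS (K := K) {v | (p : 𝓞 K) ∈ v.asIdeal ∨ v ∈ S} w,
        x ∈ M.fixingSubgroup := by
      intro σ hσ
      obtain ⟨Q', hQ', hσ'⟩ := out_IS σ hσ
      rw [IntermediateField.mem_fixingSubgroup_iff]
      exact hur Q' hQ' σ hσ'
    obtain ⟨h1, h2⟩ := E.ctl_field (rc (fun h => absurd h hp2) hG) ((ind_iff hG.above).1 hI) hζ hε
      (IntermediateField.fixingSubgroup_le hLM) (M := M.fixingSubgroup) inferInstance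
      ⟨b, by rw [← IntermediateField.finrank_eq_fixingSubgroup_index, hb]⟩
      (IntermediateField.fixingSubgroup_isOpen M) hIM hQ.1 hQ.2
    refine main hζ hε h1 h2 (fun σ => Or.inr ?_) hc hu hD
    obtain ⟨m, hm⟩ := hr
    have e : r = (p - 1 : ℕ) * m + 1 := by rw [← hm]; ring
    rw [e, zpow_add, zpow_mul, zpow_natCast, ZMod.units_pow_card_sub_one_eq_one, one_zpow, one_mul,
      zpow_one]
  exact ⟨h0, sha hG.above h0⟩

theorem ne_two {S : Finset (HeightOneSpectrum (𝓞 K))} {w : HeightOneSpectrum (𝓞 K)}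
    (hI : Independent p S w) : p ≠ 2 := by
  rintro rfl
  obtain ⟨Q, hQ, hQw⟩ := Pool.Agent.NH7.Sch.exists_Q (K := K) w
  obtain ⟨σ, -, h⟩ := hI.roots Q ⟨hQ, hQw⟩ (-1) (IsPrimitiveRoot.neg_one 0 (by norm_num))
  exact h (by rw [map_neg, map_one])

theorem two_part {S : Finset (HeightOneSpectrum (𝓞 K))}
    {w : HeightOneSpectrum (𝓞 K)} (hG : Generates p S w) (hI : Independent p S w)
    {L : IntermediateField K (Bar K)} (hL : InTowerTwo p S L) (r : ℤ) :
    OnePlaceControls p S w L r := by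
  have h0 : ∀ c : GalL L → ℤ_[p], IsCocycle r c →
      (∀ Q : Ideal (𝓞 (Bar K)), Outside p S Q → ∀ σ : GalL L, (σ : Gal K) ∈ Inr Q → c σ = 0) →
      ∀ Q : Ideal (𝓞 (Bar K)), Above Q w → TrivialOn r (Dec Q) c → TrivialOn r Set.univ c := by
    intro c hc hu Q hQ hD
    obtain ⟨M, hLM, hfd, hgal, ⟨b, hb⟩, hζM, hur⟩ := hL
    obtain ⟨ζ, ε, hζ, hε⟩ := exists_eps (K := K) (p := p)
    have hIM : ∀ x ∈ Pool.Agent.H517.S.IS (K := K) {v | (p : 𝓞 K) ∈ v.asIdeal ∨ v ∈ S} w,
        x ∈ M.fixingSubgroup := by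
      intro σ hσ
      obtain ⟨Q', hQ', hσ'⟩ := out_IS σ hσ
      rw [IntermediateField.mem_fixingSubgroup_iff]
      exact hur Q' hQ' σ hσ'
    have hMζ : ∀ σ ∈ M.fixingSubgroup, σ ζ = ζ := fun σ hσ =>
      (IntermediateField.mem_fixingSubgroup_iff M _).1 hσ ζ (hζM ζ hζ.pow_eq_one)
    have hMi : ∃ a : ℕ, M.fixingSubgroup.index = 2 * p ^ a :=
      ⟨b, by rw [← IntermediateField.finrank_eq_fixingSubgroup_index, hb]⟩
    obtain ⟨-, -, h1, h2⟩ := E.ctl_quad (rc (fun h => absurd h (ne_two hI)) hG)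
      ((ind_iff hG.above).1 hI) hζ hε
      (IntermediateField.fixingSubgroup_le hLM) (M := M.fixingSubgroup) inferInstance hMζ hMi
      (IntermediateField.fixingSubgroup_isOpen M) hIM hQ.1 hQ.2
    refine main hζ hε h1 h2 (fun σ => ?_) hc hu hD
    have hMε : M.fixingSubgroup ≤ ε.ker := by
      intro σ hσ
      rw [MonoidHom.mem_ker]
      have h6 : ζ ^ (ε σ : ZMod p).val = ζ ^ 1 := by rw [← hε, hMζ σ hσ, pow_one]
      have h7 := E.zpow_cast_eq hζ h6
      rw [ZMod.natCast_zmod_val, Nat.cast_one] at h7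
      exact Units.ext h7
    rcases E.sq_one inferInstance hMε hMi σ with h | h
    · left
      rw [h, one_zpow]
    · rcases Int.even_or_odd r with h3 | h3
      · left
        rw [h, h3.neg_one_zpow]
      · right
        rw [h, h3.neg_one_zpow]
  exact ⟨h0, sha hG.above h0⟩

/-- imaginary quadratic fields -/
theorem quad (hp2 : p ≠ 2) (h2 : finrank ℚ K = 2) (hre : IsEmpty (K →+* ℝ))
    (hcl : ¬ p ∣ classNumber K) {w w' : HeightOneSpectrum (𝓞 K)} (hne : w ≠ w')
    (hab : w.asIdeal * w'.asIdeal = Ideal.span {(p : 𝓞 K)}) {α : 𝓞 K} {k : ℕ}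
    (hα : Ideal.span {α} = w.asIdeal ^ k) (hα2 : α ^ (p - 1) - 1 ∉ w'.asIdeal ^ 2) :
    (Generates p ∅ w ∧ Independent p ∅ w) ∧ Generates p ∅ w' ∧ Independent p ∅ w' := by
  have hpw : (p : 𝓞 K) ∈ w.asIdeal := by
    have h3 : Ideal.span {(p : 𝓞 K)} ≤ w.asIdeal := by
      rw [← hab]
      exact Ideal.mul_le_left
    rwa [Ideal.span_singleton_le_iff_mem] at h3
  have hpw' : (p : 𝓞 K) ∈ w'.asIdeal := by
    have h3 : Ideal.span {(p : 𝓞 K)} ≤ w'.asIdeal := by
      rw [← hab]
      exact Ideal.mul_le_right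
    rwa [Ideal.span_singleton_le_iff_mem] at h3
  obtain ⟨h3, h4, β, hβ, hβ2⟩ := E.both_quad hp2 h2 hre hcl hne hab
    (T := {v | (p : 𝓞 K) ∈ v.asIdeal ∨ v ∈ (∅ : Finset (HeightOneSpectrum (𝓞 K)))})
    (fun v hv => hv.elim id fun h => absurd h (Finset.notMem_empty v)) hα hα2
  refine ⟨⟨⟨hpw, by simp, E.class_pow hcl w (cl w), ?_⟩, (ind_iff hpw).2 h3⟩,
    ⟨hpw', by simp, E.class_pow hcl w (cl w'), ?_⟩, (ind_iff hpw').2 h4⟩
  · simpa only [Finset.prod_empty, mul_one] using E.units_quad hp2 h2 hne hab hα hα2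
  · simpa only [Finset.prod_empty, mul_one] using
      E.units_quad hp2 h2 hne.symm (by rw [mul_comm]; exact hab) hβ hβ2

/-- the fields `ℚ(√(1 - 4p))` -/
theorem special (hp2 : p ≠ 2) (h2 : finrank ℚ K = 2) (h : ∃ α : K, α ^ 2 - α + p = 0)
    {v : HeightOneSpectrum (𝓞 K)} (hv : (p : 𝓞 K) ∈ v.asIdeal) :
    Generates p ∅ v ∧ Independent p ∅ v := by
  obtain ⟨a, ha⟩ := h
  have hint : IsIntegral ℤ a := by
    refine ⟨Polynomial.X ^ 2 - Polynomial.X + Polynomial.C (p : ℤ), by monicity!, ?_⟩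
    simpa using ha
  obtain ⟨α, hα0⟩ : ∃ α : 𝓞 K, α = ⟨a, hint⟩ := ⟨_, rfl⟩
  have hα1 : algebraMap (𝓞 K) K α = a := by rw [hα0]; rfl
  have hα : α ^ 2 - α + p = 0 := by
    apply FaithfulSMul.algebraMap_injective (𝓞 K) K
    rw [map_add, map_sub, map_pow, map_natCast, map_zero, hα1, ha]
  obtain ⟨β, hβ'⟩ : ∃ β : 𝓞 K, β = 1 - α := ⟨_, rfl⟩
  have hβ : β ^ 2 - β + p = 0 := by rw [hβ']; linear_combination hα
  obtain ⟨w, hw⟩ := B.exists_pl (p := p) h2 hα
  obtain ⟨w', hw'⟩ := B.exists_pl (p := p) h2 hβ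
  have hsum : α + β = 1 := by rw [hβ']; ring
  have hmul : α * β = p := by rw [hβ']; linear_combination -hα
  have hcop : IsCoprime w.asIdeal w'.asIdeal := by
    rw [hw, hw', Ideal.isCoprime_span_singleton_iff]
    exact ⟨1, 1, by rw [one_mul, one_mul, hsum]⟩
  have hab : w.asIdeal * w'.asIdeal = Ideal.span {(p : 𝓞 K)} := by
    rw [hw, hw', Ideal.span_singleton_mul_span_singleton, hmul]
  have hne : w ≠ w' := by
    rintro rfl
    rw [Ideal.isCoprime_iff_sup_eq, sup_idem] at hcop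
    exact w.isPrime.ne_top hcop
  have hcl : ¬ p ∣ classNumber K := by
    intro h
    have h3 : classNumber K < p := by
      unfold classNumber
      exact B.class_lt h2 hp.out hα
    exact absurd (Nat.le_of_dvd Fintype.card_pos h) (not_le.2 h3)
  have h5 := quad hp2 h2 (B.no_real hp.out.one_le hα) hcl hne hab (α := α) (k := 1)
    (by rw [pow_one, hw]) (E.pow_special h2 hα hsum hw')
  rcases E.above_quad hab hv with h6 | h6
  · rw [h6]
    exact h5.1
  · rw [h6]
    exact h5.2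

end proof

/-- **Schneider's conjecture in towers.** (1) For prime numbers `p`, number fields `K`, finite sets `S` of primes and places
`w` above `p` with the conditions `Generates` and `Independent`, all fields `L` contained in a finite Galois extension
of `K` of degree `2 · p ^ a` which contains the `p`-th roots of unity and is unramified outside `p` and `S` (for `p = 3`
these are the towers of `3`-extensions over `K(√-3)`), and ALL integers `r`:
the classes of `H¹(G_L, ℤ_p(r))` which are unramified outside `p` and `S` and trivial at one place above `w` are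
zero, and `Ш¹(O_{L,S'}, ℤ_p(r)) = 0`. (2) For odd `p`, fields `L` contained in a finite Galois extension of `K` of `p`-power
degree unramified outside `p` and `S` and `r` which are `1` modulo `p - 1`: the same. (3) For odd `p`, imaginary
quadratic `K`, `(p) = w w'`, `w ≠ w'`, `p` prime to the class number and `α ^ (p - 1)` not `1` modulo `w' ^ 2` for an
`α` for which `(α)` is a power of `w`, both conditions hold at both places, with `S = ∅`. (4) They hold for all odd `p` and
`K = ℚ(√(1 - 4p))`. -/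
theorem result :
    (∀ (p : ℕ) [Fact p.Prime] (K : Type) [Field K] [NumberField K]
      (S : Finset (HeightOneSpectrum (𝓞 K))) (w : HeightOneSpectrum (𝓞 K)), Suitable p S w →
        ∀ L : IntermediateField K (Bar K), InTowerTwo p S L → ∀ r : ℤ, OnePlaceControls p S w L r) ∧
    (∀ (p : ℕ) [Fact p.Prime] (K : Type) [Field K] [NumberField K], p ≠ 2 →
      ∀ (S : Finset (HeightOneSpectrum (𝓞 K))) (w : HeightOneSpectrum (𝓞 K)), Suitable p S w →
        ∀ L : IntermediateField K (Bar K), InTower p S L →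
          ∀ r : ℤ, ((p - 1 : ℕ) : ℤ) ∣ r - 1 → OnePlaceControls p S w L r) ∧
    (∀ (p : ℕ) [Fact p.Prime] (K : Type) [Field K] [NumberField K], p ≠ 2 →
      finrank ℚ K = 2 → IsEmpty (K →+* ℝ) → ∀ w w' : HeightOneSpectrum (𝓞 K), Gold p w w' →
        Suitable p ∅ w ∧ Suitable p ∅ w') ∧
    ∀ (p : ℕ) [Fact p.Prime] (K : Type) [Field K] [NumberField K], p ≠ 2 → finrank ℚ K = 2 →
      (∃ α : K, α ^ 2 - α + p = 0) → ∀ w : HeightOneSpectrum (𝓞 K), (p : 𝓞 K) ∈ w.asIdeal →
        Suitable p ∅ w := by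
  refine ⟨?_, ?_, ?_, ?_⟩
  · intro p _ K _ _ S w hG L hL r
    exact two_part hG.1 hG.2 hL r
  · intro p _ K _ _ hp2 S w hG L hL r hr
    exact cyclo_part hp2 hG.1 hG.2 hL hr
  · intro p _ K _ _ hp2 h2 hre w w' ⟨hne, hab, hcl, α, k, hα, hα2⟩
    exact quad hp2 h2 hre hcl hne hab hα hα2
  · intro p _ K _ _ hp2 h2 h w hw
    exact special hp2 h2 h hw

end Pool.Agent.Results.MP_59f3ad_nt.AllTwistsAtThree
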