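import Pool.Agent.H367.OS.OArt
import Mathlib

/-!
# Schneider's conjecture on Tate-Shafarevich groups of Tate twists and one double sequence of Artin motives

A relation `r` of size `m` is one of the equations `x_i x_j = x_l`, `x_i + x_j = x_l`, `x_i = 1` with
`i, j, l < m`; the relations are numbered, the number of `r` is `ν(r)` (`relNum`). Let `G_m` be the
following polynomial with integral coefficients (`univG ℤ m`). There are variables `x_i` and `z_ij` for
`i, j < m`, a variable `c_r` for every relation `r`, and variables `y_{r,l}` for all relations `r` and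
`l < (m + 1) 2 ^ ν(r)`. The equations (`eqnG`) are

  `z_ij - x_i x_j`,  `c_r ^ 2 - c_r`,  `c_r ρ_r`,  `(1 - c_r) y_{r,l}`,

where `ρ_r` is the linear polynomial `z_ij - x_l`, `x_i + x_j - x_l` or `x_i - 1` of the relation.
`G_m` is the sum of the equations multiplied by further variables `t_e`, one for each equation. It has
degree three. Let `C_m` be the affine cubic hypersurface `G_m = 1` (`cubG R m` over the ring `R`); it is
smooth over the integers.

Let `M` be the category of motives over `ℚ` in the sense of André, a semisimple abelian category with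
Tate twists `N ↦ N(a)`. For a separated scheme `X` of finite type over `ℚ` let `D.G w j X = Gr^W_w
H^j_c(X)` be the part of weight `w` of the cohomology with compact supports, a motive over `ℚ`; for
smooth projective `Y` it is `h^j(Y)` if `j = w`, and zero otherwise. The motives `h^0(Y)` and their
direct factors are the Artin motives over `ℚ` (representations of `Gal(ℚ̄/ℚ)` over `ℚ` with finite
image).

Let `E_m` be the number of the equations, and for `N ∈ ℕ` let `e = (m + 1) N + E_m - 1`
(`esh m N`). Let `V_{m,N}` be the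
motive `Gr^W_{2e} H^{2e+1}_c(C_m)(e)` (`single0 D m N`).

For a prime number `p`, an integer `r` and a motive `N` over `ℚ` let `(Sha p r).obj N` be the kernel
of `H^1(ℚ, N_p(r)) → ∏_v H^1(ℚ_v, N_p(r))` (all places `v`), for the `p`-adic realization `N_p`. For
an Artin motive `N` and `r ≠ 0` it is `Ш^1(ℤ[1/S], N_p(r))` for all finite sets `S` that contain `p`,
`∞` and the places of bad reduction, since `H^1` of the unramified quotient is zero for the other
places. For a number field `L` one has `(Sha p r).obj (h^0(Spec L)) = ℚ_p ⊗ Ш^1(O_{L,S}, ℤ_p(r))`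
(Shapiro), and for odd `p` this is zero if and only if `Ш^1(O_{L,S}, ℤ_p(r))` is zero (no torsion); so
it is question Q1 for `L`, `p` and `r` (hypothesis `describes`; `Q1 p r L`). For `r = 1` it is
Leopoldt's conjecture for `L` and `p`. The motive `h^0(Y)` is the direct sum of the `h^0(Spec L_i)`
for the fields of constants of the connected components of `Y` (hypothesis `components`).

**Theorem.** (1) For all `m ≥ 1` and `N` the motive `V_{m,N}` is an Artin motive (a direct factor of
`h^0(Y)` for a smooth projective `Y`). For every number field `L` and all large `m` there is an `N`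
such that `h^0(Spec L)` is a direct factor of `V_{m,N}`; and for all large `m` there is a number `e`
such that `h^0(Spec L)` is the motive `Gr^W_{2e} H^{2e+1}_c(C_m)(e)`.

(2) Let `p` be an odd prime and `r ≥ 1`. Question Q1 for `p` and `r` has a positive answer for all
number fields if and only if, for infinitely many `m`, the groups `Ш^1(ℤ[1/S], (V_{m,N})_p(r))` are
zero, for all `N`. For `r = 1` this is Leopoldt's conjecture for `p` and all number fields.

(3) Question Q1 has a positive answer for all number fields, all odd `p` and all `r ≥ 1` if and only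
if for infinitely many `m` these groups are zero for all `N`, `p` and `r`.

(4) For every number field `L` and all large `m` there is an `N` such that for all odd `p` and `r ≥ 1`
the vanishing of the group for the single motive `V_{m,N}` implies question Q1 for `L`, `p` and `r`.
There is also a number `e` such that question Q1 for `L`, `p` and `r` is equivalent to the vanishing
for the single motive `Gr^W_{2e} H^{2e+1}_c(C_m)(e)`, for all odd `p` and `r ≥ 1`.

(5) `G_m` has integral coefficients and degree at most three, and `C_m` is smooth over all rings.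

The hypotheses on the motives are standard (`IsMot`): exact sequences, affine bundles, disjoint unions,
the cohomology of affine spaces, the weights of `H^j_c(X)` are between `0` and `2 dim X`, monomorphisms
split, `Gr^W_w H^j_c(X)` is a direct factor of `h^w(Y)` for some smooth projective `Y` (it is a
subquotient, by the weight spectral sequence), and every smooth projective scheme has an affine bundle
whose total space is affine (Jouanolou).

Idea of the proof. The projection of `C_m` to the affine space with the coordinates `x, z, c, y` is an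
affine bundle over the complement of the zero set `W_m` of the equations. The scheme `W_m` is the
disjoint union, over all sets `s` of relations (`c_r = 1` for `r ∈ s` and `c_r = 0` for the others), of
the products `X_s × 𝔸 ^ ((m + 1) N(s))`, where `X_s` is the affine scheme defined by the relations in
`s` and `N(s) = ∑_{r ∈ s} 2 ^ ν(r)`. The numbers `N(s)` are different, and the dimension of `X_s` is at
most `m`. So the invariant of `W_m` with the index `q + (m + 1) N(s)`, `0 ≤ q ≤ m`, is the invariant of
`X_s` with the index `q`; the other components do not contribute. Every affine scheme of finite type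
over a prime field is an `X_s`, for all large `m`.

The universal system of relations is the one of helper854 (`Pool.Agent.H854.SQ`).
-/

set_option autoImplicit false

open CategoryTheory CategoryTheory.Limits AlgebraicGeometry Pool.Agent.Y116.UV Pool.Agent.Z125.UN
  Pool.Agent.Q193.LT Pool.Agent.H854.SQ Pool.Agent.H367.OS

universe w v u



namespace Pool.Agent.Results.MP_59f3ad_nt.PiecesOfOneSequence

/-- The groups `Ш^1`, and question Q1 for the number fields. -/
structure Describes {M : Type u} [Category.{v} M] [Abelian M] (D : Pieces ℚ M)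
    (Sha : ∀ (p : ℕ) [Fact p.Prime] (_ : ℤ), M ⥤ ModuleCat.{w} ℚ_[p])
    (Q1 : ℕ → ℤ → ∀ (L : Type) [Field L] [NumberField L], Prop) : Prop where
  additive : ∀ (p : ℕ) [Fact p.Prime] (r : ℤ), (Sha p r).Additive
  smoothProj : ∀ (L : Type) [Field L] [NumberField L], SmoothProj (aff ℚ L)
  describes : ∀ (p : ℕ) [Fact p.Prime] (r : ℤ) (L : Type) [Field L] [NumberField L], p ≠ 2 →
    1 ≤ r → (Q1 p r L ↔ IsZero ((Sha p r).obj (D.G 0 0 (aff ℚ L))))
  components : ∀ Y : Sch ℚ, SmoothProj Y → ∃ (n : ℕ) (L : Fin n → Type) (_ : ∀ i, Field (L i))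
    (_ : ∀ i, NumberField (L i)) (f : ∀ i, D.G 0 0 Y ⟶ D.G 0 0 (aff ℚ (L i)))
    (g : ∀ i, D.G 0 0 (aff ℚ (L i)) ⟶ D.G 0 0 Y), ∑ i, f i ≫ g i = 𝟙 (D.G 0 0 Y)

lemma zero_factor {M : Type u} [Category.{v} M] {E : Type*} [Category E] [HasZeroMorphisms E]
    (F : M ⥤ E) {N N' : M} (h : Factor N N') (hN : IsZero (F.obj N')) : IsZero (F.obj N) := by
  obtain ⟨i, r, hir⟩ := h
  rw [IsZero.iff_id_eq_zero, ← F.map_id, ← hir, F.map_comp, hN.eq_zero_of_tgt (F.map i), zero_comp]

lemma zero_sum {M : Type u} [Category.{v} M] [Preadditive M] {E : Type*} [Category E]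
    [Preadditive E] (F : M ⥤ E) [F.Additive] {n : ℕ} {N : M} {S : Fin n → M} (f : ∀ i, N ⟶ S i)
    (g : ∀ i, S i ⟶ N) (hfg : ∑ i, f i ≫ g i = 𝟙 N) (h : ∀ i, IsZero (F.obj (S i))) :
    IsZero (F.obj N) := by
  rw [IsZero.iff_id_eq_zero, ← F.map_id, ← hfg, F.map_sum]
  refine Finset.sum_eq_zero fun i _ => ?_
  rw [F.map_comp, (h i).eq_zero_of_tgt (F.map (f i)), zero_comp]

/-- **Schneider's conjecture on Tate-Shafarevich groups of Tate twists and one double sequence of Artin
motives.** See the explanations above. -/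
theorem result {M : Type u} [Category.{v} M] [Abelian M] {D : Pieces ℚ M} (h : IsMot D)
    {Sha : ∀ (p : ℕ) [Fact p.Prime] (_ : ℤ), M ⥤ ModuleCat.{w} ℚ_[p]}
    {Q1 : ℕ → ℤ → ∀ (L : Type) [Field L] [NumberField L], Prop} (hS : Describes D Sha Q1) :
    ((∀ m, 1 ≤ m → ∀ N : ℕ, ∃ Y : Sch ℚ, SmoothProj Y ∧ Factor (single0 D m N) (D.G 0 0 Y)) ∧
      ∀ (L : Type) [Field L] [NumberField L], ∀ᶠ m in Filter.atTop,
        (∃ N : ℕ, Factor (D.G 0 0 (aff ℚ L)) (single0 D m N)) ∧ ∃ e : ℕ,
          Nonempty (D.G 0 0 (aff ℚ L) ≅ (D.tw e).obj (D.G (2 * e) (2 * e + 1) (cubG ℚ m)))) ∧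
    (∀ (p : ℕ) [Fact p.Prime] (r : ℤ), p ≠ 2 → 1 ≤ r →
      ((∀ (L : Type) [Field L] [NumberField L], Q1 p r L) ↔
        ∃ᶠ m in Filter.atTop, ∀ N : ℕ, IsZero ((Sha p r).obj (single0 D m N)))) ∧
    ((∀ (p : ℕ) [Fact p.Prime] (r : ℤ), p ≠ 2 → 1 ≤ r →
        ∀ (L : Type) [Field L] [NumberField L], Q1 p r L) ↔
      ∃ᶠ m in Filter.atTop, ∀ (N p : ℕ) [Fact p.Prime] (r : ℤ), p ≠ 2 → 1 ≤ r →
        IsZero ((Sha p r).obj (single0 D m N))) ∧
    (∀ (L : Type) [Field L] [NumberField L], ∀ᶠ m in Filter.atTop,
      (∃ N : ℕ, ∀ (p : ℕ) [Fact p.Prime] (r : ℤ), p ≠ 2 → 1 ≤ r →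
        IsZero ((Sha p r).obj (single0 D m N)) → Q1 p r L) ∧
      ∃ e : ℕ, ∀ (p : ℕ) [Fact p.Prime] (r : ℤ), p ≠ 2 → 1 ≤ r → (Q1 p r L ↔
        IsZero ((Sha p r).obj ((D.tw e).obj (D.G (2 * e) (2 * e + 1) (cubG ℚ m)))))) ∧
    ∀ m : ℕ, (univG ℤ m).totalDegree ≤ 3 ∧
      ∀ (R : Type) [CommRing R], MvPolynomial.map (Int.castRingHom R) (univG ℤ m) = univG R m ∧
        Smooth (cubG R m).hom := by
  have k1 : ∀ (L : Type) [Field L] [NumberField L], ∀ᶠ m in Filter.atTop,
      ∃ N : ℕ, Factor (D.G 0 0 (aff ℚ L)) (single0 D m N) := fun L _ _ =>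
    occurs_zero h (hS.smoothProj L) (Factor.refl _)
  have k2 : ∀ (L : Type) [Field L] [NumberField L], ∀ᶠ m in Filter.atTop, ∃ e : ℕ,
      Nonempty (D.G 0 0 (aff ℚ L) ≅ (D.tw e).obj (D.G (2 * e) (2 * e + 1) (cubG ℚ m))) :=
    fun L _ _ => whole_zero h (hS.smoothProj L)
  have k3 : ∀ (p : ℕ) [Fact p.Prime] (r : ℤ), p ≠ 2 → 1 ≤ r →
      (∀ (L : Type) [Field L] [NumberField L], Q1 p r L) →
      ∀ m, 1 ≤ m → ∀ N : ℕ, IsZero ((Sha p r).obj (single0 D m N)) := by
    intro p _ r hp hr g m hm N
    obtain ⟨Y, hY, hf⟩ := single0_factor h hm N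
    obtain ⟨n, L, _, _, f, f', hf'⟩ := hS.components Y hY
    have := hS.additive p r
    exact zero_factor _ hf
      (zero_sum _ f f' hf' fun i => (hS.describes p r (L i) hp hr).mp (g (L i)))
  have k4 : ∀ (L : Type) [Field L] [NumberField L], ∀ᶠ m in Filter.atTop,
      ∃ N : ℕ, ∀ (p : ℕ) [Fact p.Prime] (r : ℤ), p ≠ 2 → 1 ≤ r →
        IsZero ((Sha p r).obj (single0 D m N)) → Q1 p r L := by
    intro L _ _
    filter_upwards [k1 L] with m hm
    obtain ⟨N, hN⟩ := hm
    exact ⟨N, fun p _ r hp hr hz => (hS.describes p r L hp hr).mpr (zero_factor _ hN hz)⟩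
  refine ⟨⟨fun m hm N => single0_factor h hm N, fun L _ _ => (k1 L).and (k2 L)⟩,
    fun p _ r hp hr => ⟨fun g => ?_, fun g L _ _ => ?_⟩, ⟨fun g => ?_, fun g p _ r hp hr L _ _ => ?_⟩,
    fun L _ _ => ?_, cubG_facts⟩
  · exact ((Filter.eventually_ge_atTop 1).mono fun m hm N => k3 p r hp hr g m hm N).frequently
  · obtain ⟨m, hm1, N, hN⟩ := (g.and_eventually (k4 L)).exists
    exact hN p r hp hr (hm1 N)
  · refine Filter.Eventually.frequently ?_
    filter_upwards [Filter.eventually_ge_atTop 1] with m hm
    intro N p _ r hp hr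
    exact k3 p r hp hr (g p r hp hr) m hm N
  · obtain ⟨m, hm1, N, hN⟩ := (g.and_eventually (k4 L)).exists
    exact hN p r hp hr (hm1 N p r hp hr)
  · filter_upwards [k4 L, k2 L] with m hm1 hm2
    refine ⟨hm1, ?_⟩
    obtain ⟨e, ⟨f⟩⟩ := hm2
    exact ⟨e, fun p _ r hp hr => (hS.describes p r L hp hr).trans
      ((Sha p r).mapIso f).isZero_iff⟩

end Pool.Agent.Results.MP_59f3ad_nt.PiecesOfOneSequence
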