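import Pool.Agent.H517.B.Fam4
import Pool.Agent.H517.S.Gen
import Pool.Agent.H517.S.Sha
import Pool.Agent.H517.S.Rat
import Pool.Agent.H517.D.Gd
import Pool.Agent.H517.D.PKum
import Pool.Agent.H517.D.PFr
import Pool.Agent.H517.D.PEq
import Pool.Agent.H517.D.POne
import Pool.Agent.H517.D.PCnt
import Pool.Agent.H517.D.PRk

/-!
# Schneider's conjecture at all prime numbers `p` over all fields in the `p`-towers above fields with
# two places above `p`

`p` is a prime number, `K` a number field (totally complex if `p = 2`), `w` a place of `K` above `p`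
and `S` a finite set of places of `K` not above `p`. The condition `Generates p S w` on the class group
and on the units outside `w` of `K` is that the class group modulo the class of `w` has order prime to
`p` and that, `(p) = w^e 𝔟` with `𝔟` prime to `w` and `𝔫` the product of the primes in `S`, every
element of `(O / 𝔟³ 𝔫)ˣ` is the product of a `p`-th power and of the image of an `α ∈ O` for which
`(α)` is a power of `w`. It is satisfied by

* `K = ℚ(√(1 - 4p))`, `S = ∅` and both places above `p`, for every prime number `p`;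
* all `K` with exactly one other place `w'` above `p`, if `p` is odd, `w'` is unramified of degree `1`, the
  class group modulo the class of `w` has order prime to `p` and some `α` with `(α)` a power of `w` has
  `α ^ (p - 1) ≢ 1` modulo `w' ^ 2` (for instance imaginary quadratic `K` in which `p` splits);
* all `K` with only one place `w` above `p` whose class group modulo the class of `w` has order prime to
  `p`, with `S = ∅`;
* `K = ℚ`, `S = {q}`, for all prime numbers `p ≠ q`, unless `q` is `1` modulo `p` and `p` is a `p`-th power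
  modulo `q`;
* if it holds for `S`, then it holds for `S ∪ {v}` for a set of primes `v` of `K` with natural density
  `1 - #((O / 𝔟³ 𝔫)ˣ / p-th powers) / ([K(ζ_p) : K] p ^ (r₁ + r₂ + δ))`, `δ = 1` if `ζ_p ∈ K`, else `0`
  (Kummer theory and Chebotarev's theorem).

Let `L` be a field which is contained in a finite Galois extension `M / K` of degree a power of `p`,
unramified outside `p` and `S`. There is no condition on the Galois group of `M / K`, and `L / K` need
not be Galois; usually the Galois group of the maximal such `M` is not abelian and not even `p`-adic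
analytic.

Theorem. Let `r` be an integer such that `ℤ/p(r)` is a trivial representation of the absolute Galois
group of `K` (for example a multiple of `p - 1`). Every class in `H¹(G_L, ℤ_p(r))` which is
unramified outside `p` and `S` and trivial at ONE place above `w` is zero. In particular
`Ш¹(O_{L,S'}, ℤ_p(r)) = 0` for all `S'`, which is Schneider's conjecture for `L`, `p` and `r`.

The fields `L` above `K = ℚ(√(1 - 4p))` have arbitrarily large degree, `r₂(L) = [L : K]`, and for `r ≥ 1`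
the groups `H¹(O_{L,S'}, ℤ_p(r))` have rank `≥ [L : K]`. There are two places above `p`, so that the
going-up theorems for `p`-regular and `(p, i)`-regular fields say nothing for these twists.

Proof. By class field theory (reciprocity, proved in an earlier run) no cyclic extension of `K` of degree
`p` which is unramified outside `p` and `S` is totally split at `w`. By the theorem of Burnside the
decomposition group of a place above `w` is dense in the maximal pro-`p` quotient unramified outside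
`p` and `S` of `G_L`. The cocycle `σ ↦ c(σ)` and the character `σ ↦ χ(σ)^r` together are a
homomorphism from this quotient to a pro-`p` group.
-/

set_option autoImplicit false
set_option linter.unusedSectionVars false

namespace Pool.Agent.Results.MP_59f3ad_nt.TowersOverSplitPrimes

open NumberField IsDedekindDomain Module

/-! ### The Galois groups, the decomposition groups and the inertia groups -/

/-- An algebraic closure of the number field `K`. -/
abbrev Bar (K : Type) [Field K] : Type := AlgebraicClosure K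

/-- The absolute Galois group of `K`. -/
abbrev Gal (K : Type) [Field K] : Type := Bar K ≃ₐ[K] Bar K

/-- The absolute Galois group of the field `L` between `K` and its algebraic closure. -/
abbrev GalL {K : Type} [Field K] (L : IntermediateField K (Bar K)) : Type := L.fixingSubgroup

section def1

variable {K : Type} [Field K]

/-- The maximal ideal `Q` of the ring of all algebraic integers lies above the prime `v` of `K`. -/
def Above (Q : Ideal (𝓞 (Bar K))) (v : HeightOneSpectrum (𝓞 K)) : Prop :=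
  Q.IsMaximal ∧ Q.comap (algebraMap (𝓞 K) (𝓞 (Bar K))) = v.asIdeal

/-- The decomposition group of the maximal ideal `Q` of the ring of all algebraic integers: the `σ`
such that `σ Q = Q`. -/
def Dec (Q : Ideal (𝓞 (Bar K))) : Set (Gal K) := {σ | ∀ x : 𝓞 (Bar K), x ∈ Q ↔ σ • x ∈ Q}

/-- The inertia group: the `σ` such that `σ x` is congruent to `x` modulo `Q` for all `x`. -/
def Inr (Q : Ideal (𝓞 (Bar K))) : Set (Gal K) := {σ | ∀ x : 𝓞 (Bar K), σ • x - x ∈ Q}

/-- `Q` is a place of the field of all algebraic numbers at which no ramification is allowed: it is a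
maximal ideal, not above `p` and not above a prime in `S`. -/
def Outside (p : ℕ) (S : Finset (HeightOneSpectrum (𝓞 K))) (Q : Ideal (𝓞 (Bar K))) : Prop :=
  Q.IsMaximal ∧ (p : 𝓞 (Bar K)) ∉ Q ∧ ∀ v ∈ S, ¬ Above Q v

/-- `L` is contained in a finite Galois extension `M / K` whose degree is a power of `p` and which is
unramified outside `p` and `S`. -/
def InTower (p : ℕ) (S : Finset (HeightOneSpectrum (𝓞 K))) (L : IntermediateField K (Bar K)) :
    Prop :=
  ∃ M : IntermediateField K (Bar K), L ≤ M ∧ FiniteDimensional K M ∧ IsGalois K M ∧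
    (∃ a : ℕ, finrank K M = p ^ a) ∧
    ∀ Q : Ideal (𝓞 (Bar K)), Outside p S Q → ∀ σ ∈ Inr Q, ∀ x ∈ M, σ x = x

/-! ### The Tate twists and the Tate–Shafarevich groups -/

/-- The `p`-adic cyclotomic character. -/
noncomputable def cyc (K : Type) [Field K] (p : ℕ) [Fact p.Prime] : Gal K →* ℤ_[p]ˣ :=
  (cyclotomicCharacter (Bar K) p).comp (MulSemiringAction.toRingAut (Gal K) (Bar K))

/-- The absolute Galois group of `K` acts trivially on `ℤ/p(r)`. -/
def ResTrivial (K : Type) [Field K] (p : ℕ) [Fact p.Prime] (r : ℤ) : Prop :=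
  ∀ σ : Gal K, (p : ℤ_[p]) ∣ (((cyc K p σ) ^ r : ℤ_[p]ˣ) : ℤ_[p]) - 1

variable {p : ℕ} [Fact p.Prime] {L : IntermediateField K (Bar K)}

/-- The `p`-adic integer by which the element `σ` of the absolute Galois group of `L` acts on
`ℤ_p(r)`, that is, the `r`-th power of the value of the cyclotomic character. -/
noncomputable def tate (p : ℕ) [Fact p.Prime] {L : IntermediateField K (Bar K)} (r : ℤ)
    (σ : GalL L) : ℤ_[p] :=
  (((cyc K p (σ : Gal K)) ^ r : ℤ_[p]ˣ) : ℤ_[p])

/-- The continuous cocycles of the absolute Galois group of `L` with values in `ℤ_p(r)`. -/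
structure IsCocycle (r : ℤ) (c : GalL L → ℤ_[p]) : Prop where
  cont : Continuous c
  mul : ∀ σ τ, c (σ * τ) = c σ + tate p r σ * c τ

/-- The restriction of `c` to the intersection of the absolute Galois group of `L` and `X` is a
coboundary with values in `ℤ_p(r)`. -/
def TrivialOn (r : ℤ) (X : Set (Gal K)) (c : GalL L → ℤ_[p]) : Prop :=
  ∃ z : ℤ_[p], ∀ σ : GalL L, (σ : Gal K) ∈ X → c σ = (tate p r σ - 1) * z

/-- The cocycles of the elements of the groups `Ш¹(O_{L,S}, ℤ_p(r))`: they vanish on the inertia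
groups of the places prime to `p` (on which the cyclotomic character is trivial), because their
classes are unramified outside `S` and locally trivial at the places of `S`, and their restrictions
to the decomposition groups of the places above `p` are coboundaries. -/
structure InSha (r : ℤ) (c : GalL L → ℤ_[p]) : Prop where
  away : ∀ Q : Ideal (𝓞 (Bar K)), Q.IsMaximal → (p : 𝓞 (Bar K)) ∉ Q →
    ∀ σ : GalL L, (σ : Gal K) ∈ Inr Q → c σ = 0
  above : ∀ Q : Ideal (𝓞 (Bar K)), Q.IsMaximal → (p : 𝓞 (Bar K)) ∈ Q → TrivialOn r (Dec Q) c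

/-- `Ш¹(O_{L,S}, ℤ_p(r)) = 0` for all `S`. -/
def ShaZero (p : ℕ) [Fact p.Prime] (L : IntermediateField K (Bar K)) (r : ℤ) : Prop :=
  ∀ c : GalL L → ℤ_[p], IsCocycle r c → InSha r c → TrivialOn r Set.univ c

end def1

/-! ### The condition on the place above `p` and on `S` -/

section def2

variable {K : Type} [Field K] [NumberField K]

/-- The class of a prime. -/
noncomputable def cl (w : HeightOneSpectrum (𝓞 K)) : ClassGroup (𝓞 K) :=
  ClassGroup.mk0 ⟨w.asIdeal, mem_nonZeroDivisors_iff_ne_zero.2 w.ne_bot⟩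

/-- The class group modulo the class of `w` has order prime to `p`. -/
def ClassCondition (p : ℕ) (w : HeightOneSpectrum (𝓞 K)) : Prop :=
  ∀ C : ClassGroup (𝓞 K), ∃ m k : ℕ, ¬ p ∣ m ∧ C ^ m = cl w ^ k

/-- The place `w` lies above `p`, those in `S` do not, the class group modulo the class of `w` has order
prime to `p` and, `(p) = w ^ e 𝔟` with `𝔟` prime to `w` and `𝔫` the product of the primes in `S`,
the group `(O / 𝔟 ^ 3 𝔫)ˣ` is generated by the `p`-th powers and the images of the elements `α` of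
`O` for which `(α)` is a power of `w`. -/
structure Generates (p : ℕ) (S : Finset (HeightOneSpectrum (𝓞 K))) (w : HeightOneSpectrum (𝓞 K)) :
    Prop where
  above : (p : 𝓞 K) ∈ w.asIdeal
  tame : ∀ v ∈ S, (p : 𝓞 K) ∉ v.asIdeal
  classes : ClassCondition p w
  units : ∃ (e : ℕ) (𝔟 : Ideal (𝓞 K)), w.asIdeal ^ e * 𝔟 = Ideal.span {(p : 𝓞 K)} ∧
    IsCoprime w.asIdeal 𝔟 ∧ ∀ x : 𝓞 K, IsCoprime (Ideal.span {x}) (𝔟 * ∏ v ∈ S, v.asIdeal) →
      ∃ (α y : 𝓞 K) (k : ℕ), Ideal.span {α} = w.asIdeal ^ k ∧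
        x * α - y ^ p ∈ 𝔟 ^ 3 * ∏ v ∈ S, v.asIdeal

/-- The natural density, among all primes of `K`, of the set of the primes with the property `P` is
`a`. -/
def HasDensity (P : HeightOneSpectrum (𝓞 K) → Prop) (a : ℝ) : Prop :=
  Filter.Tendsto (fun N : ℕ => (Nat.card {v : HeightOneSpectrum (𝓞 K) //
      Ideal.absNorm v.asIdeal ≤ N ∧ P v} : ℝ) /
        (Nat.card {v : HeightOneSpectrum (𝓞 K) // Ideal.absNorm v.asIdeal ≤ N} : ℝ))
    Filter.atTop (nhds a)

/-- The order of `(O / I)ˣ` modulo the `p`-th powers. -/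
noncomputable def unitsModPowers (p : ℕ) (I : Ideal (𝓞 K)) : ℕ :=
  (powMonoidHom p : (𝓞 K ⧸ I)ˣ →* (𝓞 K ⧸ I)ˣ).range.index

open Classical in
/-- The order of the group of the elements of `Kˣ` which are units outside `w`, modulo its `p`-th powers,
multiplied by the degree of `K(ζ_p)` over `K`: it is `[K(ζ_p) : K] p ^ (r₁ + r₂ + δ)` where `K` has `r₁`
real and `r₂` complex places and `δ = 1` if `K` contains a primitive `p`-th root of unity, `δ = 0` if
not. -/
noncomputable def kummerDegree (p : ℕ) (K : Type) [Field K] [NumberField K] : ℕ :=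
  finrank K (IntermediateField.adjoin K {ζ : Bar K | ζ ^ p = 1}) *
    p ^ (InfinitePlace.nrRealPlaces K + InfinitePlace.nrComplexPlaces K +
      if ∃ ζ : K, IsPrimitiveRoot ζ p then 1 else 0)

/-- **One place controls.** For all fields `L` in the towers over `K` and all `r` such that `ℤ/p(r)` is
trivial: the classes of `H¹(G_L, ℤ_p(r))` which are unramified outside `p` and `S` and trivial at ONE
place above `w` are zero, and `Ш¹(O_{L,S'}, ℤ_p(r)) = 0` for all `S'`. -/
def OnePlaceControls (p : ℕ) [Fact p.Prime] (S : Finset (HeightOneSpectrum (𝓞 K)))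
    (w : HeightOneSpectrum (𝓞 K)) : Prop :=
  ∀ L : IntermediateField K (Bar K), InTower p S L → ∀ r : ℤ, ResTrivial K p r →
    (∀ c : GalL L → ℤ_[p], IsCocycle r c →
      (∀ Q : Ideal (𝓞 (Bar K)), Outside p S Q → ∀ σ : GalL L, (σ : Gal K) ∈ Inr Q → c σ = 0) →
      ∀ Q : Ideal (𝓞 (Bar K)), Above Q w → TrivialOn r (Dec Q) c → TrivialOn r Set.univ c) ∧
    ShaZero p L r

/-- There is only one place above `p`. -/
def OnlyPlace (p : ℕ) (w : HeightOneSpectrum (𝓞 K)) : Prop :=
  ∃ e : ℕ, w.asIdeal ^ e = Ideal.span {(p : 𝓞 K)}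

/-- The prime `p` is odd, there is exactly one place `w'` above `p` other than `w`, it is unramified of
degree `1`, and there is an `α` such that `(α)` is a power of `w` and `α ^ (p - 1)` is not `1` modulo
`w' ^ 2`. -/
def SecondPlace (p : ℕ) (w : HeightOneSpectrum (𝓞 K)) : Prop :=
  p ≠ 2 ∧ ∃ (w' : HeightOneSpectrum (𝓞 K)) (e : ℕ), w ≠ w' ∧
    w.asIdeal ^ e * w'.asIdeal = Ideal.span {(p : 𝓞 K)} ∧ Ideal.absNorm w'.asIdeal = p ∧
    ∃ (α : 𝓞 K) (k : ℕ), Ideal.span {α} = w.asIdeal ^ k ∧ α ^ (p - 1) - 1 ∉ w'.asIdeal ^ 2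

open Classical in
/-- **The density of the primes which can be added.** For `(p) = w ^ e 𝔟`, `𝔟` prime to `w`, and `𝔫` the
product of the primes in `S`, the primes `v` such that the condition holds for `S ∪ {v}` have natural
density `1 - #((O / 𝔟 ^ 3 𝔫)ˣ / p-th powers) / ([K(ζ_p) : K] p ^ (r₁ + r₂ + δ))`; the numerator is `p ^ j`
if `𝔟 = O`, where `j` is the number of the `v ∈ S` with norm `1` modulo `p`. -/
def DensityOfExtensions (p : ℕ) (S : Finset (HeightOneSpectrum (𝓞 K)))
    (w : HeightOneSpectrum (𝓞 K)) : Prop :=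
  ∀ (e : ℕ) (𝔟 : Ideal (𝓞 K)), w.asIdeal ^ e * 𝔟 = Ideal.span {(p : 𝓞 K)} →
    IsCoprime w.asIdeal 𝔟 →
    HasDensity (fun v => Generates p (insert v S) w)
      (1 - (unitsModPowers p (𝔟 ^ 3 * ∏ v ∈ S, v.asIdeal) : ℝ) / (kummerDegree p K : ℝ)) ∧
    (𝔟 = ⊤ → unitsModPowers p (𝔟 ^ 3 * ∏ v ∈ S, v.asIdeal) =
      p ^ (S.filter fun v => p ∣ Ideal.absNorm v.asIdeal - 1).card)

end def2

section proof

open Pool.Agent.NH7.Sch (OO)
open Pool.Agent.H517

variable {K : Type} [Field K] [NumberField K] {p : ℕ} [hp : Fact p.Prime]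

theorem prod_le_iff {S : Finset (HeightOneSpectrum (𝓞 K))} (v : HeightOneSpectrum (𝓞 K)) :
    (∏ u ∈ S, u.asIdeal) ≤ v.asIdeal ↔ v ∈ S := by
  constructor
  · intro h
    obtain ⟨u, hu, huv⟩ := (v.isPrime.prod_le).1 h
    have : u = v := HeightOneSpectrum.ext (u.isMaximal.eq_of_le v.isPrime.ne_top huv)
    exact this ▸ hu
  · intro h
    exact Ideal.le_of_dvd (Finset.dvd_prod_of_mem _ h)

theorem rc (h2 : p = 2 → IsEmpty (K →+* ℝ)) {S : Finset (HeightOneSpectrum (𝓞 K))}
    {w : HeightOneSpectrum (𝓞 K)} (h : Generates p S w) :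
    Pool.Agent.H517.S.RC p {v | (p : 𝓞 K) ∈ v.asIdeal ∨ v ∈ S} w := by
  obtain ⟨e, 𝔟, hab, hcop, hun⟩ := h.units
  have h1 := Pool.Agent.H517.S.rc_all h2 hab hcop (𝔫 := ∏ v ∈ S, v.asIdeal) ?_ ?_ h.above
    (B.cls_divisor h.classes) hun
  · simpa only [prod_le_iff] using h1
  · exact Finset.prod_ne_zero_iff.2 fun v _ => v.ne_bot
  · refine IsCoprime.prod_right fun v hv => ?_
    rw [Ideal.isCoprime_iff_sup_eq]
    have h3 : ¬ Ideal.span {(p : 𝓞 K)} ≤ v.asIdeal := by
      rw [Ideal.span_singleton_le_iff_mem]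
      exact h.tame v hv
    exact v.isMaximal.1.2 _ (lt_of_le_of_ne le_sup_right fun h4 => h3 (by
      rw [h4]; exact le_sup_left))

/-- **The main theorem.** -/
theorem main {S : Finset (HeightOneSpectrum (𝓞 K))} {w : HeightOneSpectrum (𝓞 K)}
    (hrc : Pool.Agent.H517.S.RC p {v | (p : 𝓞 K) ∈ v.asIdeal ∨ v ∈ S} w)
    {L : IntermediateField K (Bar K)} (hL : InTower p S L) {r : ℤ} (hr : ResTrivial K p r)
    {c : GalL L → ℤ_[p]} (hc : IsCocycle r c)
    (hu : ∀ Q : Ideal (𝓞 (Bar K)), Outside p S Q → ∀ σ : GalL L, (σ : Gal K) ∈ Inr Q → c σ = 0)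
    {Q : Ideal (𝓞 (Bar K))} (hQ : Above Q w) (hD : TrivialOn r (Dec Q) c) :
    TrivialOn r Set.univ c := by
  obtain ⟨M, hLM, hfd, hgal, ⟨a, ha⟩, hur⟩ := hL
  -- the inertia groups
  have hout : ∀ σ : Gal K, σ ∈ Pool.Agent.H517.S.IS (K := K)
      {v | (p : 𝓞 K) ∈ v.asIdeal ∨ v ∈ S} w → ∃ Q, Outside p S Q ∧ σ ∈ Inr Q := by
    rintro σ ⟨Q, v, hQm, hQv, hvS, hvw, hσ⟩
    refine ⟨Q, ⟨hQm, fun hpQ => hvS (Or.inl ?_), fun u hu hQu => hvS (Or.inr ?_)⟩, hσ⟩
    · rw [← hQv, Ideal.mem_comap, map_natCast]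
      exact hpQ
    · have : u = v := HeightOneSpectrum.ext (hQu.2.symm.trans hQv)
      exact this ▸ hu
  have hns := Pool.Agent.H517.S.no_split hrc (H := L.fixingSubgroup)
    (M := M.fixingSubgroup) (IntermediateField.fixingSubgroup_le hLM) inferInstance
    ⟨a, by rw [← IntermediateField.finrank_eq_fixingSubgroup_index, ha]⟩
    (IntermediateField.fixingSubgroup_isOpen M)
    (by
      intro σ hσ
      obtain ⟨Q', hQ', hσ'⟩ := hout σ hσ
      rw [IntermediateField.mem_fixingSubgroup_iff]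
      exact hur Q' hQ' σ hσ') hQ.1 hQ.2
  obtain ⟨z, hz⟩ := hD
  let u : GalL L →* ℤ_[p]ˣ := (zpowGroupHom r).comp ((cyc K p).comp L.fixingSubgroup.subtype)
  have hu' : ∀ σ : GalL L, (u σ : ℤ_[p]) = tate p r σ := fun σ => rfl
  have hcont : Continuous fun σ => (u σ : ℤ_[p]) := by
    have h1 : Continuous fun σ : Gal K => cyc K p σ := Pool.Agent.Y802.continuous_chi K p
    exact Units.continuous_val.comp ((h1.comp continuous_subtype_val).zpow r)
  have h0 := Pool.Agent.H517.S.zero_of (p := p) (G := L.fixingSubgroup)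
    (I := {σ | (σ : Gal K) ∈ Pool.Agent.H517.S.IS (K := K) {v | (p : 𝓞 K) ∈ v.asIdeal ∨ v ∈ S} w})
    (D := (Pool.Agent.NH7.Sch.Dec Q).comap L.fixingSubgroup.subtype) ?_ (u := u) hcont ?_ ?_
    (c := fun σ => c σ - (u σ - 1) * z) ?_ ?_ ?_ ?_
  · refine ⟨z, fun σ _ => ?_⟩
    have h1 := h0 σ
    rw [← hu']
    exact sub_eq_zero.1 h1
  · intro N hN hNo hNi hIN
    exact hns N hN hNo hNi fun x hx => hIN x hx
  · intro σ
    rw [PadicInt.maximalIdeal_eq_span_p, Ideal.mem_span_singleton]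
    exact hr σ
  · intro σ hσ
    obtain ⟨Q', hQ', hσ'⟩ := hout _ hσ
    have h1 : cyc K p (σ : Gal K) = 1 := Pool.Agent.NH7.Sch.chi_inr hQ'.1 hQ'.2.1 hσ'
    show (cyc K p (σ : Gal K)) ^ r = 1
    rw [h1, one_zpow]
  · exact hc.cont.sub ((hcont.sub continuous_const).mul continuous_const)
  · intro σ τ
    have h1 := hc.mul σ τ
    rw [← hu'] at h1
    rw [h1, map_mul, Units.val_mul]
    ring
  · intro σ hσ
    obtain ⟨Q', hQ', hσ'⟩ := hout _ hσ
    have h1 : cyc K p (σ : Gal K) = 1 := Pool.Agent.NH7.Sch.chi_inr hQ'.1 hQ'.2.1 hσ'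
    have h2 : u σ = 1 := by
      show (cyc K p (σ : Gal K)) ^ r = 1
      rw [h1, one_zpow]
    rw [h2, hu Q' hQ' σ hσ', Units.val_one, sub_self, zero_mul, sub_zero]
  · intro σ hσ
    rw [hz σ hσ, hu', sub_self]

theorem res_of_dvd {r : ℤ} (h : ((p - 1 : ℕ) : ℤ) ∣ r) : ResTrivial K p r := by
  intro σ
  obtain ⟨m, rfl⟩ := h
  obtain ⟨u, hu⟩ : ∃ u : ℤ_[p]ˣ, u = cyc K p σ := ⟨_, rfl⟩
  rw [← hu, zpow_mul, zpow_natCast]
  have h1 : Units.map (PadicInt.toZMod (p := p)).toMonoidHom (u ^ (p - 1)) = 1 := by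
    rw [map_pow, ZMod.units_pow_card_sub_one_eq_one]
  have h2 : Units.map (PadicInt.toZMod (p := p)).toMonoidHom ((u ^ (p - 1)) ^ m) = 1 := by
    rw [map_zpow, h1, one_zpow]
  have h3 : PadicInt.toZMod (p := p) ((((u ^ (p - 1)) ^ m : ℤ_[p]ˣ) : ℤ_[p]) - 1) = 0 := by
    rw [map_sub, map_one, sub_eq_zero]
    exact congrArg Units.val h2
  have h4 : (((u ^ (p - 1)) ^ m : ℤ_[p]ˣ) : ℤ_[p]) - 1 ∈ RingHom.ker (PadicInt.toZMod (p := p)) := h3
  rwa [PadicInt.ker_toZMod, PadicInt.maximalIdeal_eq_span_p, Ideal.mem_span_singleton] at h4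

theorem res_of_root {ζ : K} (h : IsPrimitiveRoot ζ p) (r : ℤ) : ResTrivial K p r := by
  intro σ
  obtain ⟨u, hu⟩ : ∃ u : ℤ_[p]ˣ, u = cyc K p σ := ⟨_, rfl⟩
  have h0 : (p : ℤ_[p]) ∣ (u : ℤ_[p]) - 1 := by
    have h1 := Pool.Agent.NH7.Sch.chi_one (p := p) (n := 1) (ζ := ζ) (by rwa [pow_one]) σ
    rw [pow_one] at h1
    rw [hu]
    exact h1
  rw [← hu]
  have hk : ∀ x : ℤ_[p], (p : ℤ_[p]) ∣ x ↔ PadicInt.toZMod (p := p) x = 0 := by
    intro x
    rw [← RingHom.mem_ker, PadicInt.ker_toZMod, PadicInt.maximalIdeal_eq_span_p,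
      Ideal.mem_span_singleton]
  rw [hk, map_sub, map_one, sub_eq_zero] at h0
  rw [hk, map_sub, map_one, sub_eq_zero]
  have h1 : Units.map (PadicInt.toZMod (p := p)).toMonoidHom u = 1 := Units.ext h0
  have h2 : Units.map (PadicInt.toZMod (p := p)).toMonoidHom (u ^ r) = 1 := by
    rw [map_zpow, h1, one_zpow]
  exact congrArg Units.val h2

theorem sha {S : Finset (HeightOneSpectrum (𝓞 K))} {w : HeightOneSpectrum (𝓞 K)}
    (hw : (p : 𝓞 K) ∈ w.asIdeal) {L : IntermediateField K (Bar K)} {r : ℤ}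
    (h : ∀ c : GalL L → ℤ_[p], IsCocycle r c →
      (∀ Q : Ideal (𝓞 (Bar K)), Outside p S Q → ∀ σ : GalL L, (σ : Gal K) ∈ Inr Q → c σ = 0) →
      ∀ Q : Ideal (𝓞 (Bar K)), Above Q w → TrivialOn r (Dec Q) c → TrivialOn r Set.univ c) :
    ShaZero p L r := by
  intro c hc hs
  obtain ⟨Q, hQ, hQw⟩ := Pool.Agent.NH7.Sch.exists_Q (K := K) w
  refine h c hc (fun Q' hQ' => hs.away Q' hQ'.1 hQ'.2.1) Q ⟨hQ, hQw⟩ (hs.above Q hQ ?_)
  have h1 : (p : 𝓞 K) ∈ Q.comap (algebraMap (𝓞 K) (𝓞 (Bar K))) := by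
    rw [hQw]
    exact hw
  rwa [Ideal.mem_comap, map_natCast] at h1

/-- the fields `ℚ(√(1 - 4p))` -/
theorem quadratic (h2 : finrank ℚ K = 2) (h : ∃ α : K, α ^ 2 - α + p = 0) :
    IsEmpty (K →+* ℝ) ∧ ∀ w : HeightOneSpectrum (𝓞 K), (p : 𝓞 K) ∈ w.asIdeal →
      Generates p ∅ w := by
  obtain ⟨a, ha⟩ := h
  have hint : IsIntegral ℤ a := by
    refine ⟨Polynomial.X ^ 2 - Polynomial.X + Polynomial.C (p : ℤ), by monicity!, ?_⟩
    simpa using ha
  obtain ⟨α, hα0⟩ : ∃ α : 𝓞 K, α = ⟨a, hint⟩ := ⟨_, rfl⟩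
  have hα1 : algebraMap (𝓞 K) K α = a := by rw [hα0]; rfl
  have hα : α ^ 2 - α + p = 0 := by
    apply FaithfulSMul.algebraMap_injective (𝓞 K) K
    rw [map_add, map_sub, map_pow, map_natCast, map_zero, hα1, ha]
  obtain ⟨β, hβ0⟩ : ∃ β : 𝓞 K, β = 1 - α := ⟨_, rfl⟩
  have hβ : β ^ 2 - β + p = 0 := by rw [hβ0]; linear_combination hα
  obtain ⟨w₁, hw₁⟩ := B.exists_pl (p := p) h2 hα
  obtain ⟨w₂, hw₂⟩ := B.exists_pl (p := p) h2 hβ
  have hsum : α + β = 1 := by rw [hβ0]; ring
  have hmul : α * β = p := by rw [hβ0]; linear_combination -hα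
  have hcop : IsCoprime w₁.asIdeal w₂.asIdeal := by
    rw [hw₁, hw₂, Ideal.isCoprime_span_singleton_iff]
    exact ⟨1, 1, by rw [one_mul, one_mul, hsum]⟩
  have hab : w₁.asIdeal * w₂.asIdeal = Ideal.span {(p : 𝓞 K)} := by
    rw [hw₁, hw₂, Ideal.span_singleton_mul_span_singleton, hmul]
  have hcl := B.class_lt h2 hp.out hα
  refine ⟨B.no_real hp.out.one_le hα, fun w hw => ?_⟩
  have hw' : w = w₁ ∨ w = w₂ := by
    have h3 : w₁.asIdeal * w₂.asIdeal ≤ w.asIdeal := by
      rw [hab, Ideal.span_singleton_le_iff_mem]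
      exact hw
    rcases (w.isPrime.mul_le).1 h3 with h4 | h4
    · exact Or.inl (HeightOneSpectrum.ext (w₁.isMaximal.eq_of_le w.isPrime.ne_top h4)).symm
    · exact Or.inr (HeightOneSpectrum.ext (w₂.isMaximal.eq_of_le w.isPrime.ne_top h4)).symm
  rcases hw' with rfl | rfl
  · refine ⟨hw, by simp, B.class_cond hcl w, 1, w₂.asIdeal, by rw [pow_one, hab], hcop, ?_⟩
    intro x hx
    rw [Finset.prod_empty, mul_one] at hx
    obtain ⟨α', y, k, h3, h4⟩ := B.unit_cond h2 hα hsum hw₁ hw₂ x hx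
    exact ⟨α', y, k, h3, by rwa [Finset.prod_empty, mul_one]⟩
  · refine ⟨hw, by simp, B.class_cond hcl w, 1, w₁.asIdeal, by rw [pow_one, mul_comm, hab],
      hcop.symm, ?_⟩
    intro x hx
    rw [Finset.prod_empty, mul_one] at hx
    obtain ⟨α', y, k, h3, h4⟩ := B.unit_cond h2 hβ (by rw [add_comm, hsum]) hw₂ hw₁ x hx
    exact ⟨α', y, k, h3, by rwa [Finset.prod_empty, mul_one]⟩

/-- the field `ℚ` -/
theorem rational {q : ℕ} [hq : Fact q.Prime] (hpq : p ≠ q)
    (hc : q % p = 1 → ∀ y : ZMod q, y ^ p ≠ p) {w v : HeightOneSpectrum (𝓞 ℚ)}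
    (hw : (p : 𝓞 ℚ) ∈ w.asIdeal) (hv : (q : 𝓞 ℚ) ∈ v.asIdeal) : Generates p {v} w := by
  refine ⟨hw, ?_, fun C => ⟨1, 0, hp.out.one_lt.ne' ∘ Nat.dvd_one.1, by
    rw [Pool.Agent.H517.S.cls_rat C, one_pow, pow_zero]⟩, 1, ⊤, ?_, ?_, ?_⟩
  · intro u hu
    rw [Finset.mem_singleton] at hu
    subst hu
    have h1 := Pool.Agent.H517.S.mem_iff_rat hq.out hv (p : ℤ)
    rw [Int.cast_natCast] at h1
    rw [h1]
    intro h2
    exact hpq ((Nat.prime_dvd_prime_iff_eq hq.out hp.out).1 (by exact_mod_cast h2)).symm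
  · rw [pow_one, Ideal.mul_top, Pool.Agent.H517.S.eq_span_rat hp.out hw]
  · rw [← Ideal.one_eq_top]
    exact isCoprime_one_right
  · intro x hx
    rw [Finset.prod_singleton, ← Ideal.one_eq_top, one_mul] at hx
    obtain ⟨α, y, k, h1, h2⟩ := Pool.Agent.H517.S.units_rat hpq hc hw hv x hx
    exact ⟨α, y, k, h1, by rwa [Finset.prod_singleton, ← Ideal.one_eq_top, one_pow, one_mul]⟩

/-! ### The density of the primes which can be added to `S`, and more families -/

theorem gen_iff (S : Finset (HeightOneSpectrum (𝓞 K))) (w : HeightOneSpectrum (𝓞 K)) :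
    Generates p S w ↔ D.Gen p S w :=
  ⟨fun h => ⟨h.above, h.tame, h.classes, h.units⟩, fun h => ⟨h.above, h.tame, h.classes, h.units⟩⟩

theorem kummerDegree_eq : ((kummerDegree p K : ℕ) : ℝ) =
    (D.cyc p K : ℝ) * (p : ℝ) ^ (NumberField.Units.rank K + 1 + D.del p K) := by
  have h1 : NumberField.Units.rank K + 1 =
      InfinitePlace.nrRealPlaces K + InfinitePlace.nrComplexPlaces K := by
    unfold NumberField.Units.rank
    rw [InfinitePlace.card_eq_nrRealPlaces_add_nrComplexPlaces]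
    have h2 : 0 < Fintype.card (InfinitePlace K) := Fintype.card_pos
    rw [InfinitePlace.card_eq_nrRealPlaces_add_nrComplexPlaces] at h2
    omega
  rw [h1]
  unfold kummerDegree D.cyc D.del
  push_cast
  rfl

open Classical in
theorem density {S : Finset (HeightOneSpectrum (𝓞 K))} {w : HeightOneSpectrum (𝓞 K)}
    (hG : Generates p S w) {e : ℕ} {𝔟 : Ideal (𝓞 K)}
    (hab : w.asIdeal ^ e * 𝔟 = Ideal.span {(p : 𝓞 K)}) (hcop : IsCoprime w.asIdeal 𝔟) :
    HasDensity (fun v => Generates p (insert v S) w)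
      (1 - (unitsModPowers p (𝔟 ^ 3 * ∏ v ∈ S, v.asIdeal) : ℝ) / (kummerDegree p K : ℝ)) := by
  have h := D.rel_dens (D.dens_gen D.s_eq D.s_fr D.s_kum (D.s_cnt D.s_rk) K p S w
    ((gen_iff S w).1 hG) e 𝔟 hab hcop)
  rw [← kummerDegree_eq] at h
  unfold HasDensity
  simp only [gen_iff]
  exact h

open Classical in
theorem units_only (S : Finset (HeightOneSpectrum (𝓞 K))) :
    unitsModPowers p ((⊤ : Ideal (𝓞 K)) ^ 3 * ∏ v ∈ S, v.asIdeal) =
      p ^ (S.filter fun v => p ∣ Ideal.absNorm v.asIdeal - 1).card := by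
  unfold unitsModPowers
  rw [← Ideal.one_eq_top, one_pow, one_mul]
  exact D.pwi_primes p S

/-- only one place above `p` -/
theorem only {w : HeightOneSpectrum (𝓞 K)} (hw : (p : 𝓞 K) ∈ w.asIdeal)
    (h1 : ∃ e : ℕ, w.asIdeal ^ e = Ideal.span {(p : 𝓞 K)})
    (hcl : ClassCondition p w) : Generates p ∅ w := by
  obtain ⟨e, he⟩ := h1
  refine ⟨hw, by simp, hcl, e, ⊤, by rw [Ideal.mul_top, he], ?_, ?_⟩
  · rw [← Ideal.one_eq_top]
    exact isCoprime_one_right
  · intro x _
    refine ⟨1, 0, 0, by simp, ?_⟩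
    rw [Finset.prod_empty, mul_one, ← Ideal.one_eq_top, one_pow, Ideal.one_eq_top]
    trivial

/-- a second place above `p`, of degree one -/
theorem second (hp2 : p ≠ 2) {w w' : HeightOneSpectrum (𝓞 K)} {e : ℕ}
    (hab : w.asIdeal ^ e * w'.asIdeal = Ideal.span {(p : 𝓞 K)}) (hw : (p : 𝓞 K) ∈ w.asIdeal)
    (hne : w ≠ w') (hN : Ideal.absNorm w'.asIdeal = p)
    (hcl : ClassCondition p w) {α : 𝓞 K} {k : ℕ}
    (hα : Ideal.span {α} = w.asIdeal ^ k) (h2 : α ^ (p - 1) - 1 ∉ w'.asIdeal ^ 2) :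
    Generates p ∅ w := by
  refine ⟨hw, by simp, hcl, e, w'.asIdeal, hab, ?_, ?_⟩
  · rw [Ideal.isCoprime_iff_sup_eq]
    refine w'.isMaximal.1.2 _ (lt_of_le_of_ne le_sup_right fun h4 => hne ?_)
    have h5 : w.asIdeal ≤ w'.asIdeal := by rw [h4]; exact le_sup_left
    exact HeightOneSpectrum.ext (w.isMaximal.eq_of_le w'.isPrime.ne_top h5)
  · intro x hx
    rw [Finset.prod_empty, mul_one] at hx ⊢
    exact D.s_one K p hp2 w w' e hab hne hN α k hα h2 x hx

end proof

/-- **Schneider's conjecture in `p`-towers.** (1) For every prime number `p`, number field `K` (totally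
complex if `p = 2`), finite set `S` of primes and place `w` with the condition `Generates`, all fields
`L` contained in a finite Galois extension of `K` of `p`-power degree unramified outside `p` and `S`, and
all integers `r` for which `ℤ/p(r)` is trivial: the classes of `H¹(G_L, ℤ_p(r))` which are unramified
outside `p` and `S` and trivial at one place above `w` are zero, and `Ш¹(O_{L,S'}, ℤ_p(r)) = 0`.
(2) If the condition holds for `S`, then the set of the primes `v` such that it holds for `S ∪ {v}` has a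
natural density, which is `1 - #((O / 𝔟 ^ 3 𝔫)ˣ / p-th powers) / ([K(ζ_p) : K] p ^ (r₁ + r₂ + δ))`.
(3) `ℤ/p(r)` is trivial if `p - 1` divides `r`, and for all `r` if `K` contains a primitive `p`-th root of
unity. (4) The condition holds for `S = ∅` if the class group modulo the class of `w` has order prime to
`p` and either `w` is the only place above `p`, or `p` is odd, there is only one other place `w'` above `p`,
it is unramified of degree `1` and there is an `α` such that `(α)` is a power of `w` and `α ^ (p - 1)` is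
not `1` modulo `w' ^ 2`. (5) It holds for `S = ∅` and both places above `p` of `K = ℚ(√(1 - 4 p))`,
generated by a root of `X ^ 2 - X + p`, for all prime numbers `p`. (6) It holds for `K = ℚ` and `S = {q}` for
all prime numbers `p`, `q`, `p ≠ q`, unless `q` is `1` modulo `p` and `p` is a `p`-th power modulo `q`. -/
theorem result :
    (∀ (p : ℕ) [Fact p.Prime] (K : Type) [Field K] [NumberField K]
      (S : Finset (HeightOneSpectrum (𝓞 K))) (w : HeightOneSpectrum (𝓞 K)), Generates p S w →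
        DensityOfExtensions p S w ∧ ((p = 2 → IsEmpty (K →+* ℝ)) → OnePlaceControls p S w)) ∧
    (∀ (p : ℕ) [Fact p.Prime] (K : Type) [Field K] [NumberField K] (r : ℤ),
      ((p - 1 : ℕ) : ℤ) ∣ r ∨ (∃ ζ : K, IsPrimitiveRoot ζ p) → ResTrivial K p r) ∧
    (∀ (p : ℕ) [Fact p.Prime] (K : Type) [Field K] [NumberField K] (w : HeightOneSpectrum (𝓞 K)),
      (p : 𝓞 K) ∈ w.asIdeal → ClassCondition p w → OnlyPlace p w ∨ SecondPlace p w →
        Generates p ∅ w) ∧
    (∀ (p : ℕ) [Fact p.Prime] (K : Type) [Field K] [NumberField K], finrank ℚ K = 2 →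
      (∃ α : K, α ^ 2 - α + p = 0) → IsEmpty (K →+* ℝ) ∧
        ∀ w : HeightOneSpectrum (𝓞 K), (p : 𝓞 K) ∈ w.asIdeal → Generates p ∅ w) ∧
    ∀ (p q : ℕ) [Fact p.Prime] [Fact q.Prime], p ≠ q →
      (q % p = 1 → ∀ y : ZMod q, y ^ p ≠ p) →
      ∀ w v : HeightOneSpectrum (𝓞 ℚ), (p : 𝓞 ℚ) ∈ w.asIdeal → (q : 𝓞 ℚ) ∈ v.asIdeal →
        Generates p {v} w := by
  refine ⟨?_, ?_, ?_, ?_, ?_⟩
  · intro p _ K _ _ S w hw
    refine ⟨?_, ?_⟩
    · intro e 𝔟 hab hcop
      refine ⟨density hw hab hcop, ?_⟩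
      rintro rfl
      exact units_only S
    · intro h2 L hL r hr
      have h1 : ∀ c : GalL L → ℤ_[p], IsCocycle r c →
          (∀ Q : Ideal (𝓞 (Bar K)), Outside p S Q → ∀ σ : GalL L, (σ : Gal K) ∈ Inr Q → c σ = 0) →
          ∀ Q : Ideal (𝓞 (Bar K)), Above Q w → TrivialOn r (Dec Q) c → TrivialOn r Set.univ c :=
        fun c hc hu Q hQ hD => main (rc h2 hw) hL hr hc hu hQ hD
      exact ⟨h1, sha hw.above h1⟩
  · rintro p _ K _ _ r (h | ⟨ζ, h⟩)
    · exact res_of_dvd h
    · exact res_of_root h r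
  · intro p _ K _ _ w hw hcl h
    rcases h with h1 | ⟨hp2, w', e, hne, hab, hN, α, k, hα, h2⟩
    · exact only hw h1 hcl
    · exact second hp2 hab hw hne hN hcl hα h2
  · intro p _ K _ _ h2 h
    exact quadratic h2 h
  · intro p q _ _ hpq hc w v hw hv
    exact rational hpq hc hw hv

end Pool.Agent.Results.MP_59f3ad_nt.TowersOverSplitPrimes
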